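import Pool.Agent.Run7.h434.EP.Iface

/-!
# Piece MID of the project EP (helper434): a Poincare inequality for convex bodies

The constant depends on the dimension and the diameter only.
-/

set_option autoImplicit false

namespace Run7.h842.EP

open MeasureTheory Set Filter Topology
open scoped ENNReal
open Run7.h434.EP (Body Poi S_MID)
open Pool.Agent.W695.KH (Eu EV VV)

variable {κ : Type} [Fintype κ]

/-- the integrand along a segment -/
lemma cont_seg (f : Eu κ → ℝ) (hf : ContDiff ℝ 1 f) :
    Continuous fun x : Eu κ => ‖fderiv ℝ f x‖ ^ 2 :=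
  ((hf.continuous_fderiv one_ne_zero).norm).pow 2

/-- pointwise bound -/
lemma ptw (f : Eu κ → ℝ) (hf : ContDiff ℝ 1 f) (x y : Eu κ) :
    (f y - f x) ^ 2 ≤
      ‖y - x‖ ^ 2 * ∫ t in (0 : ℝ)..1, ‖fderiv ℝ f ((1 - t) • x + t • y)‖ ^ 2 := by
  have hγ : Continuous fun t : ℝ => (1 - t) • x + t • y := by fun_prop
  have hfd : Continuous (fderiv ℝ f) := hf.continuous_fderiv one_ne_zero
  set h : ℝ → ℝ := fun t => fderiv ℝ f ((1 - t) • x + t • y) (y - x) with hh
  have hhc : Continuous h := (hfd.comp hγ).clm_apply continuous_const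
  have hd : ∀ t : ℝ, HasDerivAt (fun t : ℝ => f ((1 - t) • x + t • y)) (h t) t := by
    intro t
    have h1 : HasDerivAt (fun t : ℝ => (1 - t) • x + t • y) (y - x) t := by
      have h2 : HasDerivAt (fun t : ℝ => (1 - t) • x) ((-1 : ℝ) • x) t := by
        have h3 : HasDerivAt (fun t : ℝ => (1 - t)) (-1 : ℝ) t := by
          simpa using (hasDerivAt_id t).const_sub 1
        exact h3.smul_const x
      have h4 : HasDerivAt (fun t : ℝ => t • y) ((1 : ℝ) • y) t :=
        (hasDerivAt_id t).smul_const y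
      have h5 := h2.add h4
      have h6 : ((-1 : ℝ) • x + (1 : ℝ) • y) = y - x := by
        rw [neg_one_smul, one_smul]; abel
      rw [h6] at h5
      exact h5
    exact ((hf.differentiable one_ne_zero) _).hasFDerivAt.comp_hasDerivAt t h1
  have hint : ∫ t in (0 : ℝ)..1, h t = f y - f x := by
    have := intervalIntegral.integral_eq_sub_of_hasDerivAt (a := (0 : ℝ)) (b := 1)
      (fun t _ => hd t) (hhc.intervalIntegrable 0 1)
    simpa using this
  have hcs : (∫ t in (0 : ℝ)..1, h t) ^ 2 ≤ ∫ t in (0 : ℝ)..1, h t ^ 2 := by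
    set c := ∫ t in (0 : ℝ)..1, h t with hc
    have h0 : 0 ≤ ∫ t in (0 : ℝ)..1, (h t - c) ^ 2 :=
      intervalIntegral.integral_nonneg (by norm_num) fun t _ => sq_nonneg _
    have h1 : ∫ t in (0 : ℝ)..1, (h t - c) ^ 2 =
        (∫ t in (0 : ℝ)..1, h t ^ 2) - 2 * c * c + c ^ 2 := by
      have h2 : (fun t => (h t - c) ^ 2) = fun t => (h t ^ 2 - 2 * c * h t) + c ^ 2 := by
        funext t; ring
      rw [h2, intervalIntegral.integral_add, intervalIntegral.integral_sub,
        intervalIntegral.integral_const_mul, ← hc]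
      · simp
      · exact (hhc.pow 2).intervalIntegrable _ _
      · exact (continuous_const.mul hhc).intervalIntegrable _ _
      · exact ((hhc.pow 2).sub (continuous_const.mul hhc)).intervalIntegrable _ _
      · exact intervalIntegrable_const
    nlinarith
  have hle : ∫ t in (0 : ℝ)..1, h t ^ 2 ≤
      ∫ t in (0 : ℝ)..1, ‖y - x‖ ^ 2 * ‖fderiv ℝ f ((1 - t) • x + t • y)‖ ^ 2 := by
    apply intervalIntegral.integral_mono_on (by norm_num)
    · exact (hhc.pow 2).intervalIntegrable _ _
    · exact (continuous_const.mul ((hfd.comp hγ).norm.pow 2)).intervalIntegrable _ _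
    · intro t _
      have h1 : |h t| ≤ ‖fderiv ℝ f ((1 - t) • x + t • y)‖ * ‖y - x‖ := by
        have := (fderiv ℝ f ((1 - t) • x + t • y)).le_opNorm (y - x)
        simpa [hh, Real.norm_eq_abs] using this
      calc h t ^ 2 = |h t| ^ 2 := (sq_abs _).symm
        _ ≤ (‖fderiv ℝ f ((1 - t) • x + t • y)‖ * ‖y - x‖) ^ 2 :=
          pow_le_pow_left₀ (abs_nonneg _) h1 2
        _ = _ := by ring
  rw [intervalIntegral.integral_const_mul] at hle
  rw [← hint]
  exact hcs.trans hle

/-- lintegral form -/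
lemma ptw' (f : Eu κ → ℝ) (hf : ContDiff ℝ 1 f) (x y : Eu κ) (D : ℝ) (hD : ‖y - x‖ ≤ D) :
    ENNReal.ofReal ((f y - f x) ^ 2) ≤ ENNReal.ofReal (D ^ 2) *
      ∫⁻ t in Icc (0 : ℝ) 1, ENNReal.ofReal (‖fderiv ℝ f ((1 - t) • x + t • y)‖ ^ 2) := by
  have hγ : Continuous fun t : ℝ => (1 - t) • x + t • y := by fun_prop
  have hfd : Continuous (fderiv ℝ f) := hf.continuous_fderiv one_ne_zero
  have hc : Continuous fun t : ℝ => ‖fderiv ℝ f ((1 - t) • x + t • y)‖ ^ 2 :=
    (hfd.comp hγ).norm.pow 2
  have h1 := ptw f hf x y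
  have h2 : ∫⁻ t in Icc (0 : ℝ) 1, ENNReal.ofReal (‖fderiv ℝ f ((1 - t) • x + t • y)‖ ^ 2) =
      ENNReal.ofReal (∫ t in (0 : ℝ)..1, ‖fderiv ℝ f ((1 - t) • x + t • y)‖ ^ 2) := by
    rw [intervalIntegral.integral_of_le (by norm_num), ← integral_Icc_eq_integral_Ioc,
      ofReal_integral_eq_lintegral_ofReal]
    · exact (hc.continuousOn.integrableOn_compact isCompact_Icc)
    · exact Filter.Eventually.of_forall fun t => by positivity
  rw [h2, ← ENNReal.ofReal_mul (by positivity)]
  apply ENNReal.ofReal_le_ofReal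
  refine h1.trans ?_
  apply mul_le_mul_of_nonneg_right
  · exact pow_le_pow_left₀ (norm_nonneg _) hD 2
  · exact intervalIntegral.integral_nonneg (by norm_num) fun t _ => by positivity

/-- scaling -/
lemma lint_smul (g : Eu κ → ℝ≥0∞) (hg : Measurable g) (t : ℝ) (ht : 0 < t) (a : Eu κ) :
    ∫⁻ y : Eu κ, g (a + t • y) = ENNReal.ofReal ((t ^ Fintype.card κ)⁻¹) * ∫⁻ y, g y := by
  have h1 : ∫⁻ y : Eu κ, g (a + t • y) = ∫⁻ y : Eu κ, g (a + y) ∂(Measure.map (t • ·) volume) := by
    rw [lintegral_map]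
    · exact hg.comp (measurable_const_add a)
    · exact measurable_const_smul t
  rw [h1, Measure.map_addHaar_smul volume ht.ne', lintegral_smul_measure,
    lintegral_add_left_eq_self, smul_eq_mul]
  congr 2
  rw [finrank_euclideanSpace, abs_of_pos (by positivity)]

/-- one value of `t`, at least one half -/
lemma slab (L : Set (Eu κ)) (hL : Convex ℝ L) (hm : MeasurableSet L) (g : Eu κ → ℝ≥0∞)
    (hg : Measurable g) (t : ℝ) (ht : 1 / 2 ≤ t) (ht1 : t ≤ 1) :
    ∫⁻ x in L, ∫⁻ y in L, g ((1 - t) • x + t • y) ≤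
      2 ^ Fintype.card κ * volume L * ∫⁻ u in L, g u := by
  have h1 : ∀ x ∈ L, ∫⁻ y in L, g ((1 - t) • x + t • y) ≤
      2 ^ Fintype.card κ * ∫⁻ u in L, g u := by
    intro x hx
    have h2 : ∫⁻ y in L, g ((1 - t) • x + t • y) ≤
        ∫⁻ y, (L.indicator g) ((1 - t) • x + t • y) := by
      rw [← lintegral_indicator hm]
      apply lintegral_mono
      intro y
      by_cases hy : y ∈ L
      · have h3 : (1 - t) • x + t • y ∈ L := hL hx hy (by linarith) (by linarith) (by ring)
        simp [hy, h3]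
      · simp [hy]
    refine h2.trans ?_
    rw [lint_smul _ (hg.indicator hm) t (by linarith), lintegral_indicator hm]
    gcongr
    have h4 : (t ^ Fintype.card κ)⁻¹ ≤ 2 ^ Fintype.card κ := by
      rw [← inv_pow]
      apply pow_le_pow_left₀ (by positivity)
      rw [inv_le_comm₀ (by linarith) (by norm_num)]
      linarith
    calc ENNReal.ofReal ((t ^ Fintype.card κ)⁻¹) ≤ ENNReal.ofReal (2 ^ Fintype.card κ) :=
          ENNReal.ofReal_le_ofReal h4
      _ = 2 ^ Fintype.card κ := by
          rw [ENNReal.ofReal_pow (by norm_num)]; norm_num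
  calc ∫⁻ x in L, ∫⁻ y in L, g ((1 - t) • x + t • y)
      ≤ ∫⁻ _x in L, 2 ^ Fintype.card κ * ∫⁻ u in L, g u := setLIntegral_mono' hm h1
    _ = _ := by
      rw [setLIntegral_const]; ring

/-- every value of `t` -/
lemma slab' (L : Set (Eu κ)) (hL : Convex ℝ L) (hm : MeasurableSet L) (hfin : volume L ≠ ⊤)
    (g : Eu κ → ℝ≥0∞) (hg : Measurable g) (t : ℝ) (ht : t ∈ Icc (0 : ℝ) 1) :
    ∫⁻ x in L, ∫⁻ y in L, g ((1 - t) • x + t • y) ≤
      2 ^ Fintype.card κ * volume L * ∫⁻ u in L, g u := by
  rcases le_total (1 / 2) t with h | h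
  · exact slab L hL hm g hg t h ht.2
  · have : IsFiniteMeasure (volume.restrict L) := ⟨by simpa using lt_top_iff_ne_top.2 hfin⟩
    have h1 := slab L hL hm g hg (1 - t) (by linarith) (by linarith [ht.1])
    have h2 : ∫⁻ x in L, ∫⁻ y in L, g ((1 - t) • x + t • y) =
        ∫⁻ y in L, ∫⁻ x in L, g ((1 - t) • x + t • y) := by
      apply lintegral_lintegral_swap
      apply Measurable.aemeasurable
      exact hg.comp (by fun_prop)
    rw [h2]
    refine le_trans (le_of_eq ?_) h1
    apply lintegral_congr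
    intro y
    apply lintegral_congr
    intro x
    congr 1
    rw [sub_sub_cancel, add_comm]

/-- the double integral -/
lemma dbl (L : Set (Eu κ)) (hL : Convex ℝ L) (hm : MeasurableSet L) (hfin : volume L ≠ ⊤)
    (D : ℝ) (hdiam : ∀ x ∈ L, ∀ y ∈ L, ‖x - y‖ ≤ D)
    (f : Eu κ → ℝ) (hf : ContDiff ℝ 1 f) :
    ∫⁻ x in L, ∫⁻ y in L, ENNReal.ofReal ((f y - f x) ^ 2) ≤
      ENNReal.ofReal (D ^ 2) * (2 ^ Fintype.card κ * volume L *
        ∫⁻ u in L, ENNReal.ofReal (‖fderiv ℝ f u‖ ^ 2)) := by
  have : IsFiniteMeasure (volume.restrict L) := ⟨by simpa using lt_top_iff_ne_top.2 hfin⟩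
  set g : Eu κ → ℝ≥0∞ := fun u => ENNReal.ofReal (‖fderiv ℝ f u‖ ^ 2) with hgdef
  have hg : Measurable g := (cont_seg f hf).measurable.ennreal_ofReal
  have hmeas3 : Measurable fun p : (Eu κ × Eu κ) × ℝ => g ((1 - p.2) • p.1.1 + p.2 • p.1.2) :=
    hg.comp (by fun_prop)
  calc ∫⁻ x in L, ∫⁻ y in L, ENNReal.ofReal ((f y - f x) ^ 2)
      ≤ ∫⁻ x in L, ∫⁻ y in L, ENNReal.ofReal (D ^ 2) *
          ∫⁻ t in Icc (0 : ℝ) 1, g ((1 - t) • x + t • y) := by
        apply setLIntegral_mono' hm
        intro x hx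
        apply setLIntegral_mono' hm
        intro y hy
        exact ptw' f hf x y D (hdiam y hy x hx)
    _ = ENNReal.ofReal (D ^ 2) * ∫⁻ x in L, ∫⁻ y in L,
          ∫⁻ t in Icc (0 : ℝ) 1, g ((1 - t) • x + t • y) := by
        rw [← lintegral_const_mul]
        · apply lintegral_congr
          intro x
          rw [lintegral_const_mul]
          have h1 : Measurable fun p : Eu κ × ℝ => g ((1 - p.2) • x + p.2 • p.1) :=
            hg.comp (by fun_prop)
          exact h1.lintegral_prod_right'
        · have h1 : Measurable fun p : Eu κ × Eu κ =>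
              ∫⁻ t in Icc (0 : ℝ) 1, g ((1 - t) • p.1 + t • p.2) := hmeas3.lintegral_prod_right'
          exact h1.lintegral_prod_right'
    _ = ENNReal.ofReal (D ^ 2) * ∫⁻ t in Icc (0 : ℝ) 1, ∫⁻ x in L, ∫⁻ y in L,
          g ((1 - t) • x + t • y) := by
        congr 1
        have h1 : ∀ x : Eu κ, ∫⁻ y in L, ∫⁻ t in Icc (0 : ℝ) 1, g ((1 - t) • x + t • y) =
            ∫⁻ t in Icc (0 : ℝ) 1, ∫⁻ y in L, g ((1 - t) • x + t • y) := by
          intro x
          apply lintegral_lintegral_swap
          apply Measurable.aemeasurable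
          exact hg.comp (by fun_prop)
        simp_rw [h1]
        apply lintegral_lintegral_swap
        apply Measurable.aemeasurable
        have h2 : Measurable fun p : (Eu κ × ℝ) × Eu κ =>
            g ((1 - p.1.2) • p.1.1 + p.1.2 • p.2) := hg.comp (by fun_prop)
        exact h2.lintegral_prod_right'
    _ ≤ ENNReal.ofReal (D ^ 2) * ∫⁻ _t in Icc (0 : ℝ) 1,
          (2 ^ Fintype.card κ * volume L * ∫⁻ u in L, g u) := by
        refine mul_le_mul_right ?_ _
        apply setLIntegral_mono' measurableSet_Icc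
        intro t ht
        exact slab' L hL hm hfin g hg t ht
    _ = _ := by
        rw [setLIntegral_const]
        simp

/-- the variance as a double integral -/
lemma var_id (L : Set (Eu κ)) (hc : IsCompact L) (f : Eu κ → ℝ) (hf : Continuous f) :
    ∫⁻ x in L, ∫⁻ y in L, ENNReal.ofReal ((f y - f x) ^ 2) =
      ENNReal.ofReal (2 * (volume L).toReal * (∫ x in L, f x ^ 2) - 2 * (∫ x in L, f x) ^ 2) := by
  have hfin : volume L ≠ ⊤ := hc.measure_ne_top
  have : IsFiniteMeasure (volume.restrict L) := ⟨by simpa using lt_top_iff_ne_top.2 hfin⟩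
  have hi1 : Integrable f (volume.restrict L) := hf.continuousOn.integrableOn_compact hc
  have hi2 : Integrable (fun x => f x ^ 2) (volume.restrict L) :=
    (hf.pow 2).continuousOn.integrableOn_compact hc
  set V := (volume L).toReal with hV
  set A := ∫ x in L, f x with hA
  set B := ∫ x in L, f x ^ 2 with hB
  have hin : ∀ x, ∫ y in L, (f y - f x) ^ 2 = B - 2 * f x * A + V * f x ^ 2 := by
    intro x
    have h2 : (fun y => (f y - f x) ^ 2) = fun y => (f y ^ 2 - 2 * f x * f y) + f x ^ 2 := by
      funext y; ring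
    rw [h2, integral_add, integral_sub, integral_const_mul]
    · simp [hV, hA, hB, Measure.real]
    · exact hi2
    · exact hi1.const_mul _
    · exact hi2.sub (hi1.const_mul _)
    · exact integrable_const _
  have h1 : ∀ x, ∫⁻ y in L, ENNReal.ofReal ((f y - f x) ^ 2) =
      ENNReal.ofReal (B - 2 * f x * A + V * f x ^ 2) := by
    intro x
    rw [← hin x, ofReal_integral_eq_lintegral_ofReal]
    · exact ((hf.sub continuous_const).pow 2).continuousOn.integrableOn_compact hc
    · exact Filter.Eventually.of_forall fun t => sq_nonneg _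
  simp_rw [h1]
  rw [← ofReal_integral_eq_lintegral_ofReal]
  · congr 1
    rw [integral_add, integral_sub, integral_const_mul]
    · have h3 : ∫ x in L, 2 * f x * A = 2 * A * A := by
        have : (fun x => 2 * f x * A) = fun x => (2 * A) * f x := by funext x; ring
        rw [this, integral_const_mul]
      rw [h3]
      have h4 : ((volume.restrict L) univ).toReal = V := by simp [hV]
      simp only [integral_const, smul_eq_mul, Measure.real]
      rw [h4, ← hB]
      ring
    · exact integrable_const _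
    · have : (fun x => 2 * f x * A) = fun x => (2 * A) * f x := by funext x; ring
      rw [this]
      exact hi1.const_mul _
    · refine (integrable_const _).sub ?_
      have : (fun x => 2 * f x * A) = fun x => (2 * A) * f x := by funext x; ring
      rw [this]
      exact hi1.const_mul _
    · exact hi2.const_mul _
  · refine Integrable.add ((integrable_const _).sub ?_) (hi2.const_mul _)
    have : (fun x => 2 * f x * A) = fun x => (2 * A) * f x := by funext x; ring
    rw [this]
    exact hi1.const_mul _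
  · exact Filter.Eventually.of_forall fun x => by
      show (0 : ℝ) ≤ B - 2 * f x * A + V * f x ^ 2
      rw [← hin x]
      exact integral_nonneg fun y => sq_nonneg _

/-- **MID** -/
theorem t_MID : S_MID := by
  intro κ _ _ L D hL hD hdiam f hf
  have hc := hL.comp
  have hm : MeasurableSet L := hc.measurableSet
  have hfin : volume L ≠ ⊤ := hc.measure_ne_top
  have hpos : 0 < volume L := by
    have h1 : 0 < volume (interior L) := isOpen_interior.measure_pos volume ⟨0, hL.zero⟩
    exact h1.trans_le (measure_mono interior_subset)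
  have hV : 0 < (volume L).toReal := ENNReal.toReal_pos hpos.ne' hfin
  have h1 := dbl L hL.conv hm hfin D hdiam f hf
  rw [var_id L hc f hf.continuous] at h1
  have hG : ∫⁻ u in L, ENNReal.ofReal (‖fderiv ℝ f u‖ ^ 2) =
      ENNReal.ofReal (∫ u in L, ‖fderiv ℝ f u‖ ^ 2) := by
    rw [ofReal_integral_eq_lintegral_ofReal]
    · exact (cont_seg f hf).continuousOn.integrableOn_compact hc
    · exact Filter.Eventually.of_forall fun t => by positivity
  set V := (volume L).toReal with hVdef
  set A := ∫ x in L, f x with hA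
  set B := ∫ x in L, f x ^ 2 with hB
  set G := ∫ u in L, ‖fderiv ℝ f u‖ ^ 2 with hGd
  have hG0 : 0 ≤ G := integral_nonneg fun u => by positivity
  have hvol : volume L = ENNReal.ofReal V := (ENNReal.ofReal_toReal hfin).symm
  have h2d : (2 : ℝ≥0∞) ^ Fintype.card κ = ENNReal.ofReal (2 ^ Fintype.card κ) := by
    rw [ENNReal.ofReal_pow (by norm_num)]; norm_num
  rw [hG, hvol, h2d, ← ENNReal.ofReal_mul (by positivity), ← ENNReal.ofReal_mul (by positivity),
    ← ENNReal.ofReal_mul (by positivity), ENNReal.ofReal_le_ofReal_iff (by positivity)] at h1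
  -- the final computation
  have h3 : VV L f = (V * B - A ^ 2) / V ^ 2 := by
    simp only [VV, EV]
    rw [← hVdef, ← hA, ← hB]
    field_simp
  have h4 : EV L (fun x => ‖fderiv ℝ f x‖ ^ 2) = G / V := by
    simp only [EV]
    rw [← hVdef, ← hGd]
  rw [h3, h4, div_le_iff₀ (by positivity)]
  have h5 : 2 ^ Fintype.card κ * D ^ 2 * (G / V) * V ^ 2 = 2 ^ Fintype.card κ * D ^ 2 * G * V := by
    field_simp
  rw [h5]
  have h6 : 0 ≤ 2 ^ Fintype.card κ * D ^ 2 * G * V := by positivity
  nlinarith

end Run7.h842.EP
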