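import Pool.Agent.Run7.h434.EP.Iface

/-!
# Project EP: `ℝ^(n × κ)` and `(ℝ^κ)^n` (TRF)
-/

set_option autoImplicit false

namespace Run7.h842.EP

open MeasureTheory Set Filter Topology
open scoped ENNReal InnerProductSpace
open Pool.Agent.W695.KH (Eu EV VV PerLe sec)
open Run7.h434.EP

lemma norm_sq_dual {κ : Type} [Fintype κ] [DecidableEq κ] (L : Eu κ →L[ℝ] ℝ) :
    ‖L‖ ^ 2 = ∑ i, (L (EuclideanSpace.single i (1 : ℝ))) ^ 2 := by
  set x := (InnerProductSpace.toDual ℝ (Eu κ)).symm L with hx
  have h1 : ‖x‖ = ‖L‖ := by rw [hx, LinearIsometryEquiv.norm_map]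
  rw [← h1, EuclideanSpace.norm_sq_eq]
  refine Finset.sum_congr rfl fun i _ => ?_
  have h2 : L (EuclideanSpace.single i (1 : ℝ)) = x i := by
    rw [← InnerProductSpace.toDual_symm_apply (𝕜 := ℝ), ← hx, EuclideanSpace.inner_single_right]
    simp
  rw [h2, Real.norm_eq_abs, sq_abs]

lemma mp_uncurry (n : ℕ) (κ : Type) [Fintype κ] :
    MeasurePreserving (MeasurableEquiv.curry (Fin n) κ ℝ).symm volume volume := by
  refine ⟨(MeasurableEquiv.curry (Fin n) κ ℝ).symm.measurable, ?_⟩
  refine (Measure.pi_eq fun s hs => ?_).symm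
  rw [MeasurableEquiv.map_apply]
  have e : (MeasurableEquiv.curry (Fin n) κ ℝ).symm ⁻¹' Set.pi univ s =
      Set.pi univ fun i : Fin n => Set.pi univ fun j : κ => s (i, j) := by
    ext z
    simp only [Set.mem_preimage, Set.mem_univ_pi, Prod.forall]
    rfl
  rw [e, volume_pi_pi]
  simp only [volume_pi_pi]
  rw [Fintype.prod_prod_type]

/-- `unblk` as a continuous linear map. -/
noncomputable def unblkL (n : ℕ) (κ : Type) [Fintype κ] :
    (Fin n → Eu κ) →L[ℝ] Eu (Fin n × κ) :=
  LinearMap.toContinuousLinearMap
    { toFun := unblk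
      map_add' := fun a b => by ext p; rfl
      map_smul' := fun c a => by ext p; rfl }

lemma unblkL_apply {n : ℕ} {κ : Type} [Fintype κ] (z : Fin n → Eu κ) :
    unblkL n κ z = unblk z := rfl

lemma blk_unblk {n : ℕ} {κ : Type} [Fintype κ] (z : Fin n → Eu κ) : blk (unblk z) = z := by
  funext v
  ext i
  rfl

lemma unblk_blk {n : ℕ} {κ : Type} [Fintype κ] (z : Eu (Fin n × κ)) : unblk (blk z) = z := by
  ext p
  rfl

theorem t_TRF : S_TRF := by
  intro n κ _
  classical
  refine ⟨blk_unblk, unblk_blk, ?_, ?_⟩
  · have h1 : MeasurePreserving (WithLp.ofLp : Eu (Fin n × κ) → (Fin n × κ → ℝ)) volume volume :=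
      PiLp.volume_preserving_ofLp (Fin n × κ)
    have h2 : MeasurePreserving (MeasurableEquiv.curry (Fin n) κ ℝ) volume volume :=
      (mp_uncurry n κ).symm
    have h3 : MeasurePreserving (fun (z : Fin n → κ → ℝ) (v : Fin n) =>
        (WithLp.toLp 2 (z v) : Eu κ)) volume volume :=
      volume_preserving_pi fun _ => PiLp.volume_preserving_toLp κ
    exact h3.comp (h2.comp h1)
  · intro F hF
    refine ⟨hF.comp (unblkL n κ).contDiff, fun z => ?_⟩
    have hgv : ∀ v : Fin n, gv (fun z => F (unblk z)) v (blk z) =
        ‖(fderiv ℝ F z).comp ((unblkL n κ).comp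
          (ContinuousLinearMap.single ℝ (fun _ : Fin n => Eu κ) v))‖ := by
      intro v
      unfold gv
      congr 1
      refine HasFDerivAt.fderiv ?_
      have e1 : unblk (Function.update (blk z) v (blk z v)) = z := by
        rw [Function.update_eq_self, unblk_blk]
      have hF1 : HasFDerivAt F (fderiv ℝ F z) (unblk (Function.update (blk z) v (blk z v))) := by
        rw [e1]
        exact (hF.differentiable one_ne_zero z).hasFDerivAt
      have hin : HasFDerivAt (fun u : Eu κ => unblk (Function.update (blk z) v u))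
          ((unblkL n κ).comp (ContinuousLinearMap.single ℝ (fun _ : Fin n => Eu κ) v))
          (blk z v) := by
        have e2 : (fun u : Eu κ => unblk (Function.update (blk z) v u)) = fun u =>
            unblk (Function.update (blk z) v 0) + ((unblkL n κ).comp
              (ContinuousLinearMap.single ℝ (fun _ : Fin n => Eu κ) v)) u := by
          funext u
          rw [ContinuousLinearMap.comp_apply, ContinuousLinearMap.single_apply, unblkL_apply,
            ← unblkL_apply, ← unblkL_apply, ← unblkL_apply, ← map_add]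
          congr 1
          funext w
          by_cases hw : w = v
          · subst hw
            simp
          · simp [Function.update_of_ne hw, Pi.single_eq_of_ne hw]
        rw [e2]
        exact (ContinuousLinearMap.hasFDerivAt _).const_add _
      exact HasFDerivAt.comp (g := F) (f := fun u : Eu κ => unblk (Function.update (blk z) v u))
        (blk z v) hF1 hin
    rw [norm_sq_dual, Fintype.sum_prod_type]
    refine Finset.sum_congr rfl fun v _ => ?_
    rw [hgv v, norm_sq_dual]
    refine Finset.sum_congr rfl fun i _ => ?_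
    have e3 : (EuclideanSpace.single (v, i) (1 : ℝ) : Eu (Fin n × κ)) =
        unblk (Pi.single v (EuclideanSpace.single i (1 : ℝ)) : Fin n → Eu κ) := by
      ext p
      obtain ⟨w, j⟩ := p
      show (EuclideanSpace.single (v, i) (1 : ℝ) : Eu (Fin n × κ)) (w, j) =
        ((Pi.single v (EuclideanSpace.single i (1 : ℝ)) : Fin n → Eu κ) w) j
      by_cases hw : w = v
      · subst hw
        simp [EuclideanSpace.single_apply, Prod.ext_iff]
      · rw [Pi.single_eq_of_ne hw]
        simp [EuclideanSpace.single_apply, Prod.ext_iff, hw]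
    rw [ContinuousLinearMap.comp_apply, ContinuousLinearMap.comp_apply,
      ContinuousLinearMap.single_apply, unblkL_apply, e3]

end Run7.h842.EP
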